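import Pool.Agent.Helper24.CR.De
import Pool.Agent.Helper17.LR.Pi

/-!
# PROJECT ALLQ (MP_274814_nt), criterion block: all relations between the ratios
-/

set_option autoImplicit false

namespace Pool.Agent.Helper24.CR

open Set Module Pool.Agent.Helper17.LR Pool.Agent.Helper24.LU Pool.Agent.Helper24.GammaTr
open Pool.Agent.Helper24.GammaDist (IsOddDist)
open Pool.Agent.Helper24.LRDefs

theorem Rr_pos {q a : ℕ} (h1 : 1 ≤ a) (h2 : a < q) : 0 < Rr q a := by
  have hqr : (0 : ℝ) < q := by exact_mod_cast (by omega : 0 < q)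
  have hcr : (0 : ℝ) < a := by exact_mod_cast h1
  have hcq : (a : ℝ) < q := by exact_mod_cast h2
  have hlt : (a : ℝ) / q < 1 := by rw [div_lt_one hqr]; exact hcq
  exact div_pos (Real.Gamma_pos_of_pos (by positivity)) (Real.Gamma_pos_of_pos (by linarith))

theorem lr_eq {q a : ℕ} (h1 : 1 ≤ a) (h2 : a < q) :
    lr (((a : ℚ) / q : ℚ) : ℝ) = Real.log (Rr q a) := by
  have hqr : (0 : ℝ) < q := by exact_mod_cast (by omega : 0 < q)
  have hcr : (0 : ℝ) < a := by exact_mod_cast h1
  have hcq : (a : ℝ) < q := by exact_mod_cast h2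
  have hlt : (a : ℝ) / q < 1 := by rw [div_lt_one hqr]; exact hcq
  unfold lr Rr
  push_cast
  rw [Real.log_div (Real.Gamma_pos_of_pos (by positivity)).ne'
    (Real.Gamma_pos_of_pos (by linarith)).ne']

theorem H_eq {q a : ℕ} (h1 : 1 ≤ a) (h2 : a < q) :
    H ⊥ ((a : ℚ) / q) = Submodule.Quotient.mk (Real.log (Rr q a)) := by
  have hqr : (0 : ℚ) < q := by exact_mod_cast (by omega : 0 < q)
  have hcr : (0 : ℚ) < a := by exact_mod_cast h1
  have hcq : (a : ℚ) < q := by exact_mod_cast h2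
  have h3 : (0 : ℚ) < (a : ℚ) / q := by positivity
  have h4 : (a : ℚ) / q < 1 := by rw [div_lt_one hqr]; exact hcq
  have h5 : Int.fract ((a : ℚ) / q) = (a : ℚ) / q := Int.fract_eq_self.mpr ⟨h3.le, h4⟩
  unfold H
  rw [h5, if_neg h3.ne', lr_eq h1 h2]

/-- A product of powers of ratios is algebraic exactly if the classes satisfy the relation. -/
theorem prod_alg_iff (q : ℕ) (S : Finset ℕ) (hS : ∀ a ∈ S, 1 ≤ a ∧ a < q) (m : ℕ → ℤ) :
    IsAlgebraic ℚ (∏ a ∈ S, Rr q a ^ m a) ↔
      ∑ a ∈ S, (m a : ℚ) • H ⊥ ((a : ℚ) / q) = 0 := by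
  have h1 : ∑ a ∈ S, (m a : ℚ) • H ⊥ ((a : ℚ) / q) =
      Submodule.Quotient.mk (∑ a ∈ S, (m a : ℝ) * Real.log (Rr q a)) := by
    rw [← Submodule.mkQ_apply, map_sum]
    refine Finset.sum_congr rfl fun a ha => ?_
    rw [H_eq (hS a ha).1 (hS a ha).2, Submodule.mkQ_apply, ← Submodule.Quotient.mk_smul]
    congr 1
  have h2 : Real.exp (∑ a ∈ S, (m a : ℝ) * Real.log (Rr q a)) = ∏ a ∈ S, Rr q a ^ m a := by
    rw [Real.exp_sum]
    refine Finset.prod_congr rfl fun a ha => ?_
    rw [← Real.rpow_intCast, Real.rpow_def_of_pos (Rr_pos (hS a ha).1 (hS a ha).2)]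
    congr 1
    ring
  rw [h1, Submodule.Quotient.mk_eq_zero]
  have h3 : (∑ a ∈ S, (m a : ℝ) * Real.log (Rr q a)) ∈ CC ⊥ ↔
      IsAlgebraic (⊥ : IntermediateField ℚ ℂ)
        ((Real.exp (∑ a ∈ S, (m a : ℝ) * Real.log (Rr q a)) : ℝ) : ℂ) := Iff.rfl
  rw [h3, h2]
  constructor
  · intro h
    have h4 : IsAlgebraic ℚ (((∏ a ∈ S, Rr q a ^ m a : ℝ)) : ℂ) :=
      (isAlgebraic_algebraMap_iff (R := ℚ) (S := ℝ) (A := ℂ) Complex.ofReal_injective).2 h
    exact h4.tower_top _
  · intro h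
    have h4 := alg_bot h
    exact (isAlgebraic_algebraMap_iff (R := ℚ) (S := ℝ) (A := ℂ) Complex.ofReal_injective).1 h4

/-- The relation between the classes holds exactly if it holds for all odd distributions. -/
theorem class_iff (q : ℕ) (hq : 2 < q) (h : HasInd q (q.totient / 2)) (S : Finset ℕ)
    (hS : ∀ a ∈ S, 1 ≤ a ∧ a < q) (m : ℕ → ℤ) :
    ∑ a ∈ S, (m a : ℚ) • H ⊥ ((a : ℚ) / q) = 0 ↔
      ∀ f : ℚ → ℝ, IsOddDist f → ∑ a ∈ S, (m a : ℝ) * f ((a : ℚ) / q) = 0 := by
  classical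
  have hq0 : NeZero q := ⟨by omega⟩
  constructor
  · intro h1 f hf
    set c : ZMod q → ℚ := fun x => if x.val ∈ S then (m x.val : ℚ) else 0 with hc
    have key : ∀ {M : Type} [AddCommGroup M] [Module ℚ M] (F : ℚ → M),
        ∑ x : ZMod q, c x • F ((x.val : ℚ) / q) = ∑ a ∈ S, (m a : ℚ) • F ((a : ℚ) / q) := by
      intro M _ _ F
      have h2 : ∀ x : ZMod q, c x • F ((x.val : ℚ) / q) =
          if x.val ∈ S then (m x.val : ℚ) • F ((x.val : ℚ) / q) else 0 := by
        intro x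
        rw [hc]
        by_cases hx : x.val ∈ S
        · simp only [if_pos hx]
        · simp only [if_neg hx, zero_smul]
      rw [Finset.sum_congr rfl fun x _ => h2 x, ← Finset.sum_filter]
      refine Finset.sum_bij (fun x _ => x.val) ?_ ?_ ?_ ?_
      · intro x hx
        exact (Finset.mem_filter.1 hx).2
      · intro x _ y _ hxy
        exact ZMod.val_injective q hxy
      · intro a ha
        refine ⟨(a : ZMod q), ?_, ZMod.val_cast_of_lt (hS a ha).2⟩
        rw [Finset.mem_filter]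
        refine ⟨Finset.mem_univ _, ?_⟩
        rw [ZMod.val_cast_of_lt (hS a ha).2]
        exact ha
      · intro x _
        rfl
    have h2 := rel_all q hq h (fun a : ZMod q => f ((a.val : ℚ) / q)) (OD_of hf q) c (by
      rw [← h1]
      exact key (H ⊥))
    rw [key f] at h2
    rw [← h2]
    refine Finset.sum_congr rfl fun a _ => ?_
    rw [Rat.smul_def]
    push_cast
    rfl
  · intro h1
    rw [← Module.forall_dual_apply_eq_zero_iff ℚ]
    intro l
    have h2 : IsOddDist (fun x : ℚ => ((l (H ⊥ x) : ℚ) : ℝ)) := by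
      refine ⟨fun x => by rw [H_per], fun x => by rw [H_odd, map_neg]; push_cast; rfl,
        fun N hN x => ?_⟩
      rw [← H_mul ⊥ N hN x, map_sum]
      push_cast
      rfl
    have h3 := h1 _ h2
    rw [map_sum]
    have h4 : ((∑ a ∈ S, l ((m a : ℚ) • H ⊥ ((a : ℚ) / q)) : ℚ) : ℝ) = 0 := by
      rw [← h3]
      push_cast
      refine Finset.sum_congr rfl fun a _ => ?_
      rw [map_smul, smul_eq_mul]
      push_cast
      rfl
    exact_mod_cast h4

/-- Algebraic independence of ratios is multiplicative independence modulo algebraic numbers. -/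
theorem ai_iff (q : ℕ) (hq : 2 < q) (h : HasInd q (q.totient / 2)) (S : Finset ℕ)
    (hS : ∀ a ∈ S, 1 ≤ a ∧ a < q) :
    AlgebraicIndependent ℚ (fun a : S => Rr q a) ↔
      ∀ m : ℕ → ℤ, IsAlgebraic ℚ (∏ a ∈ S, Rr q a ^ m a) → ∀ a ∈ S, m a = 0 := by
  classical
  have hq0 : NeZero q := ⟨by omega⟩
  constructor
  · intro h1 m hm a ha
    have h2 := li_of_ai q (fun a : S => (a : ℕ)) (fun a => hS a a.2) (real_iff.2 h1)
    rw [prod_alg_iff q S hS] at hm
    rw [Fintype.linearIndependent_iff] at h2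
    have h3 := h2 (fun a : S => (m a : ℚ)) (by
      rw [← hm]
      exact Finset.sum_coe_sort S (fun a => (m a : ℚ) • H ⊥ ((a : ℚ) / q))) ⟨a, ha⟩
    exact_mod_cast h3
  · intro h1
    have h2 : LinearIndependent ℤ (fun a : S => H ⊥ (((a : ℕ) : ℚ) / q)) := by
      rw [Fintype.linearIndependent_iff]
      intro g hg a
      set m : ℕ → ℤ := fun n => if hn : n ∈ S then g ⟨n, hn⟩ else 0 with hm
      have h3 : ∑ a ∈ S, (m a : ℚ) • H ⊥ ((a : ℚ) / q) = 0 := by
        rw [← Finset.sum_coe_sort S (fun a => (m a : ℚ) • H ⊥ ((a : ℚ) / q)), ← hg]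
        refine Finset.sum_congr rfl fun a _ => ?_
        rw [hm]
        simp only [Finset.coe_mem, dif_pos, Subtype.coe_eta]
        exact (Int.cast_smul_eq_zsmul ℚ (g a) _)
      have h4 := h1 m ((prod_alg_iff q S hS m).2 h3) a a.2
      rw [hm] at h4
      simpa using h4
    have h3 : LinearIndependent ℚ (fun a : S => H ⊥ (((a : ℕ) : ℚ) / q)) :=
      (LinearIndependent.iff_fractionRing ℤ ℚ).1 h2
    set T : Set (ZMod q) := (fun a : ℕ => (a : ZMod q)) '' (S : Set ℕ) with hT
    have hinj : ∀ a ∈ S, ∀ b ∈ S, (a : ZMod q) = (b : ZMod q) → a = b := by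
      intro a ha b hb hab
      have := congrArg ZMod.val hab
      rwa [ZMod.val_cast_of_lt (hS a ha).2, ZMod.val_cast_of_lt (hS b hb).2] at this
    let e : S → T := fun a => ⟨((a : ℕ) : ZMod q), ⟨a, a.2, rfl⟩⟩
    have he : Function.Bijective e := by
      constructor
      · intro a b hab
        exact Subtype.ext (hinj a a.2 b b.2 (congrArg Subtype.val hab))
      · rintro ⟨_, a, ha, rfl⟩
        exact ⟨⟨a, ha⟩, rfl⟩
    have h4 : LinearIndepOn ℚ (hv q) T := by
      have h5 : LinearIndependent ℚ (fun x : T => hv q x) := by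
        have h6 : LinearIndependent ℚ ((fun x : T => hv q x) ∘ (Equiv.ofBijective e he)) := by
          convert h3 using 1
          funext a
          change H ⊥ ((((a : ℕ) : ZMod q).val : ℚ) / q) = _
          rw [ZMod.val_cast_of_lt (hS a a.2).2]
        exact (linearIndependent_equiv (Equiv.ofBijective e he)).1 h6
      exact h5
    have h5 := indep_of_hv q hq h T h4
    have h6 := h5.comp e he.1
    rw [← real_iff]
    convert h6 using 1
    funext a
    change _ = ((Rr q (((a : ℕ) : ZMod q).val) : ℝ) : ℂ)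
    rw [ZMod.val_cast_of_lt (hS a a.2).2]

end Pool.Agent.Helper24.CR
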