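import Pool.Agent.Helper24.CR.Ex

/-!
# PROJECT ALLQ (MP_274814_nt), criterion block: exact degrees of the field of the problem
-/

set_option autoImplicit false

namespace Pool.Agent.Helper24.CR

open Set Module Pool.Agent.Helper17.LR Pool.Agent.Helper24.LU Pool.Agent.Helper24.GammaTr
open Pool.Agent.Helper24.GammaChar (Good)
open Pool.Agent.Helper24.LRDefs

/-- A finite independent family algebraic over a field bounds its degree from below. -/
theorem card_le_trdeg {I : Type} [Finite I] (y : I → ℂ) (hy : AlgebraicIndependent ℚ y)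
    (F : IntermediateField ℚ ℂ) (hF : ∀ i, IsAlgebraic F (y i)) :
    ((Nat.card I : ℕ) : Cardinal) ≤ Algebra.trdeg ℚ F := by
  have : Fintype I := Fintype.ofFinite I
  set L := IntermediateField.adjoin ℚ (Set.range y) with hL
  have h1 : Algebra.trdeg ℚ L ≤ Algebra.trdeg ℚ F := by
    apply Pool.Agent.Helper24.GammaFull.trdeg_le_of_alg2
    have hle : L ≤ (algebraicClosure F ℂ).restrictScalars ℚ := by
      rw [hL, IntermediateField.adjoin_le_iff]
      rintro z ⟨o, rfl⟩
      change _ ∈ IntermediateField.restrictScalars ℚ _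
      rw [IntermediateField.mem_restrictScalars, mem_algebraicClosure_iff]
      exact hF o
    intro z hz
    have := hle hz
    rwa [IntermediateField.mem_restrictScalars, mem_algebraicClosure_iff] at this
  refine le_trans ?_ h1
  have hyi : AlgebraicIndependent ℚ
      (fun o => (⟨y o, IntermediateField.subset_adjoin ℚ _ ⟨o, rfl⟩⟩ : L)) :=
    (AlgHom.algebraicIndependent_iff L.val L.val.injective).1 hy
  have h2 := hyi.lift_cardinalMk_le_trdeg
  rw [Cardinal.mk_fintype, ← Nat.card_eq_fintype_card] at h2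
  simpa using h2

/-- The primitive ratios are algebraic over the field of the problem. -/
theorem Rz_alg_F (q : ℕ) [NeZero q] (hq : 2 < q) (a : ZMod q) (ha : IsUnit a) :
    IsAlgebraic (F q) (Rz q a) := by
  obtain ⟨u, rfl⟩ := ha
  have hpi : (Real.pi : ℂ) ∈ F q := IntermediateField.subset_adjoin ℚ _ (Or.inl rfl)
  have h0 := unit_val_pos (by omega : 1 < q) u
  have h1 := ZMod.val_lt (u : ZMod q)
  exact Rr_alg_of_mem (F q) q (u : ZMod q).val h0 h1 hpi
    (IntermediateField.subset_adjoin ℚ _ (Or.inr ⟨(u : ZMod q).val, h0, by omega,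
      ZMod.val_coe_unit_coprime u, rfl⟩))

theorem trdeg_F_ge (q : ℕ) (hq : 2 < q) (h : HasInd q (q.totient / 2)) :
    ((gd q : ℕ) : Cardinal) ≤ Algebra.trdeg ℚ (F q) := by
  have hq0 : NeZero q := ⟨by omega⟩
  obtain ⟨S, hS, hcard, -, hai⟩ := exists_prim q hq h
  rw [← hcard]
  exact card_le_trdeg _ hai (F q) (fun a => Rz_alg_F q hq a (hS a a.2))

theorem trdeg_F_eq (q : ℕ) (hq : 2 < q) (h : HasInd q (q.totient / 2)) (hp : ¬ PA q) :
    Algebra.trdeg ℚ (F q) = ((1 + gd q : ℕ) : Cardinal) := by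
  have hq0 : NeZero q := ⟨by omega⟩
  obtain ⟨S, hS, hcard, -, hai⟩ := exists_prim q hq h
  apply le_antisymm
  · exact trdeg_F_le q hq
  have hnot : ¬ IsAlgebraic (Algebra.adjoin ℚ (range fun a : S => Rz q a)) (Real.pi : ℂ) := by
    intro hc
    apply hp
    rw [PA_iff q q dvd_rfl]
    have hsub : (range fun a : S => Rz q a) = Rz q '' S := (image_eq_range _ _).symm
    rw [hsub] at hc
    refine cl_mono (Rz q) _ ?_ hc
    intro x hx
    refine ⟨?_, ?_⟩
    · change (q : ZMod q) * x = 0
      rw [ZMod.natCast_self, zero_mul]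
    · intro hx0
      rw [mem_singleton_iff] at hx0
      have := hS x hx
      rw [hx0, isUnit_zero_iff] at this
      have : Fact (1 < q) := ⟨by omega⟩
      exact zero_ne_one ‹(0 : ZMod q) = 1›
  have h0 : AlgebraicIndependent ℚ
      (fun o : Option S => o.elim (Real.pi : ℂ) fun a : S => Rz q a) :=
    (hai.option_iff_transcendental _).2 hnot
  have h1 := card_le_trdeg _ h0 (F q) (by
    rintro (_ | a)
    · exact isAlg_of_mem _ (IntermediateField.subset_adjoin ℚ _ (Or.inl rfl))
    · exact Rz_alg_F q hq a (hS a a.2))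
  have h2 : Nat.card (Option S) = 1 + gd q := by
    rw [Finite.card_option, hcard, add_comm]
  rwa [h2] at h1

/-- The field generated by the primitive ratios. -/
noncomputable def Kp (q : ℕ) : IntermediateField ℚ ℂ :=
  IntermediateField.adjoin ℚ {z : ℂ | ∃ a : ℕ, 1 ≤ a ∧ a < q ∧ a.Coprime q ∧
    z = ((Rr q a : ℝ) : ℂ)}

theorem trdeg_Kp (q : ℕ) (hq : 2 < q) (h : HasInd q (q.totient / 2)) :
    Algebra.trdeg ℚ (Kp q) = ((gd q : ℕ) : Cardinal) := by
  have hq0 : NeZero q := ⟨by omega⟩
  obtain ⟨S, hS, hcard, hspan, hai⟩ := exists_prim q hq h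
  have hmem : ∀ a : ZMod q, IsUnit a → Rz q a ∈ Kp q := by
    rintro _ ⟨u, rfl⟩
    exact IntermediateField.subset_adjoin ℚ _
      ⟨(u : ZMod q).val, unit_val_pos (by omega : 1 < q) u, ZMod.val_lt _,
        ZMod.val_coe_unit_coprime u, rfl⟩
  have hS0 : ∀ b ∈ S, b ≠ 0 := by
    intro x hx hx0
    have := hS x hx
    rw [hx0, isUnit_zero_iff] at this
    have : Fact (1 < q) := ⟨by omega⟩
    exact zero_ne_one ‹(0 : ZMod q) = 1›
  apply le_antisymm
  · have hfin : Finite S := Finite.of_injective (fun a : S => (a : ZMod q)) Subtype.val_injective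
    have h1 := trdeg_le_of_alg (Kp q) (Rz q '' S) (by
      have hle : Kp q ≤ (algebraicClosure (IntermediateField.adjoin ℚ (Rz q '' S)) ℂ).restrictScalars
          ℚ := by
        unfold Kp
        rw [IntermediateField.adjoin_le_iff]
        rintro z ⟨a, ha1, ha2, ha3, rfl⟩
        change _ ∈ IntermediateField.restrictScalars ℚ _
        rw [IntermediateField.mem_restrictScalars, mem_algebraicClosure_iff]
        have h2 := hspan (ZMod.unitOfCoprime a ha3)
        rw [ZMod.coe_unitOfCoprime] at h2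
        have ha0 : (a : ZMod q) ≠ 0 := by
          intro h3
          rw [ZMod.natCast_eq_zero_iff] at h3
          exact absurd (Nat.le_of_dvd ha1 h3) (by omega)
        have h3 := alg_of_span q S (a : ZMod q) ha0 hS0 h2
          (IntermediateField.adjoin ℚ (Rz q '' S))
          (fun b hb => isAlg_of_mem _ (IntermediateField.subset_adjoin ℚ _ ⟨b, hb, rfl⟩))
        unfold Rz at h3
        rwa [ZMod.val_cast_of_lt ha2] at h3
      intro z hz
      have := hle hz
      rwa [IntermediateField.mem_restrictScalars, mem_algebraicClosure_iff] at this)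
    refine h1.trans (Cardinal.mk_image_le.trans ?_)
    have : Fintype S := Fintype.ofFinite S
    rw [Cardinal.mk_fintype, ← Nat.card_eq_fintype_card, hcard]
  · rw [← hcard]
    exact card_le_trdeg _ hai (Kp q) (fun a => isAlg_of_mem _ (hmem a (hS a a.2)))

/-- The primitive ratios are independent exactly at the good levels. -/
theorem prim_iff (q : ℕ) (hq : 2 < q) (h : HasInd q (q.totient / 2)) :
    AlgebraicIndependent ℚ (fun a : Pidx q => Rr q a) ↔ HP q :=
  ⟨fun h1 => by_contra fun h2 => prim_dep q hq h2 h1, fun h1 => h.prim hq h1⟩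

/-- Exact degrees at every level, up to one integer. -/
theorem degrees (hall : ∀ q : ℕ, 2 < q → HasInd q (q.totient / 2)) (f : ℕ)
    (hf : ∀ q : ℕ, 0 < q → (PA q ↔ f ∣ q)) (q : ℕ) (hq : 2 < q) :
    ((gd q : ℕ) : Cardinal) ≤ Algebra.trdeg ℚ (F q) ∧
      Algebra.trdeg ℚ (F q) ≤ ((1 + gd q : ℕ) : Cardinal) ∧
      (¬ f ∣ q → Algebra.trdeg ℚ (F q) = ((1 + gd q : ℕ) : Cardinal)) ∧
      Algebra.trdeg ℚ (Kp q) = ((gd q : ℕ) : Cardinal) :=
  ⟨trdeg_F_ge q hq (hall q hq), trdeg_F_le q hq,
    fun h => trdeg_F_eq q hq (hall q hq) (fun hp => h ((hf q (by omega)).1 hp)),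
    trdeg_Kp q hq (hall q hq)⟩

end Pool.Agent.Helper24.CR
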