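import Pool.Agent.Helper17.LR.Al

/-!
# PROJECT ALLQ (MP_274814_nt), criterion block: eigenvectors of good characters

An odd distribution of level `q` which is an eigenvector for a character `χ` whose primitive
character is not `1` at the primes dividing `q` vanishes if it vanishes at `1`.
-/

set_option autoImplicit false

namespace Pool.Agent.Helper24.CR

open Pool.Agent.Helper17.LR

theorem gcd_unit {q : ℕ} [NeZero q] {a b : ℕ} (u : (ZMod q)ˣ)
    (h : (a : ZMod q) = (u : ZMod q) * (b : ZMod q)) : Nat.gcd a q = Nat.gcd b q := by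
  have h1 : (a : ZMod q) = (((u : ZMod q).val * b : ℕ) : ZMod q) := by
    rw [Nat.cast_mul, ZMod.natCast_zmod_val, h]
  rw [ZMod.natCast_eq_natCast_iff] at h1
  rw [h1.gcd_eq, Nat.Coprime.gcd_mul_left_cancel]
  exact ZMod.val_coe_unit_coprime u

theorem eigen_prim (q : ℕ) [NeZero q] (χ : DirichletCharacter ℂ q)
    (hgood : ∀ p : ℕ, p.Prime → p ∣ q → χ.primitiveCharacter (p : ℕ) ≠ 1) (E : ZMod q → ℂ)
    (hrel : ∀ p : ℕ, p.Prime → p ∣ q → ∀ a : ZMod q,
      ∑ t ∈ Finset.univ.filter (fun t : ZMod q => (p : ZMod q) * t = 0), E (a + t) = E (p * a))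
    (hχ : ∀ (u : (ZMod q)ˣ) (a : ZMod q), E (u * a) = χ u * E a)
    (h0 : E 1 = 0) : ∀ a, E a = 0 := by
  classical
  have hq0 : q ≠ 0 := NeZero.ne q
  have key : ∀ g : ℕ, g ∣ q → E (g : ZMod q) = 0 := by
    intro g
    induction g using Nat.strong_induction_on with
    | _ g ih =>
      intro hg
      by_cases hg1 : g = 1
      · rw [hg1, Nat.cast_one]; exact h0
      obtain ⟨p, hp, hpg⟩ := Nat.exists_prime_and_dvd hg1
      have hpq : p ∣ q := hpg.trans hg
      have hg0 : 0 < g := Nat.pos_of_dvd_of_pos hg (NeZero.pos q)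
      obtain ⟨g', hgg⟩ := hpg
      have hg'0 : 0 < g' := by
        rcases Nat.eq_zero_or_pos g' with h | h
        · rw [h, mul_zero] at hgg; omega
        · exact h
      have hlt : g' < g := by
        rw [hgg]
        exact lt_mul_of_one_lt_left hg'0 hp.one_lt
      have hg'q : g' ∣ q := (Dvd.intro_left p hgg.symm).trans hg
      have hr := hrel p hp hpq ((g' : ℕ) : ZMod q)
      rw [← Nat.cast_mul, ← hgg] at hr
      by_contra hne
      -- χ factors through level q / g
      obtain ⟨m, hm⟩ := hg
      have hmq : m ∣ q := Dvd.intro_left g hm.symm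
      have hm0 : 0 < m := Nat.pos_of_dvd_of_pos hmq (NeZero.pos q)
      have hqm : q / m = g := by
        rw [hm]; exact Nat.mul_div_cancel _ hm0
      have hker : ∀ w : (ZMod q)ˣ, (w : ZMod q) * ((g : ℕ) : ZMod q) = ((g : ℕ) : ZMod q) →
          χ (w : ZMod q) = 1 := by
        intro w hw
        have h1 := hχ w ((g : ℕ) : ZMod q)
        rw [hw] at h1
        have h2 : (χ (w : ZMod q) - 1) * E ((g : ℕ) : ZMod q) = 0 := by
          rw [sub_mul, one_mul, ← h1, sub_self]
        exact sub_eq_zero.1 ((mul_eq_zero.1 h2).resolve_right hne)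
      have hcond : χ.conductor ∣ m := by
        rw [← DirichletCharacter.mem_conductorSet_iff_conductor_dvd χ hmq]
        apply (DirichletCharacter.factorsThrough_iff_ker_unitsMap (χ := χ) hmq).2
        intro w hw
        rw [MonoidHom.mem_ker] at hw ⊢
        have h1 := (unit_one_iff hmq w).1 hw
        rw [hqm] at h1
        apply Units.ext
        rw [MulChar.coe_toUnitHom, hker w h1, Units.val_one]
      have hcq : χ.conductor ∣ q := hcond.trans hmq
      -- the terms of the sum
      have hterm : ∀ t : ZMod q, (p : ZMod q) * t = 0 →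
          E (((g' : ℕ) : ZMod q) + t) ≠ 0 → ∃ u : (ZMod q)ˣ,
            E (((g' : ℕ) : ZMod q) + t) = χ (u : ZMod q) * E ((g : ℕ) : ZMod q) ∧
            χ.primitiveCharacter (p : ℕ) * χ (u : ZMod q) = 1 := by
        intro t ht hne'
        obtain ⟨e, he, u, hu, huy⟩ := ZMod.eq_unit_mul_divisor (((g' : ℕ) : ZMod q) + t)
        obtain ⟨u, rfl⟩ := hu
        have hpy : ((p * e : ℕ) : ZMod q) = ((u⁻¹ : (ZMod q)ˣ) : ZMod q) * ((g : ℕ) : ZMod q) := by
          have h1 : (p : ZMod q) * (((g' : ℕ) : ZMod q) + t) = ((g : ℕ) : ZMod q) := by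
            rw [mul_add, ht, add_zero, ← Nat.cast_mul, ← hgg]
          rw [← h1, huy, Nat.cast_mul]
          calc (p : ZMod q) * (e : ZMod q)
              = (((u⁻¹ : (ZMod q)ˣ) : ZMod q) * (u : ZMod q)) * ((p : ZMod q) * (e : ZMod q)) := by
                rw [Units.inv_mul, one_mul]
            _ = _ := by ring
        have hgcd : Nat.gcd (p * e) q = g := by
          rw [gcd_unit _ hpy]
          exact Nat.gcd_eq_left ⟨m, hm⟩
        have he0 : 0 < e := Nat.pos_of_dvd_of_pos he (NeZero.pos q)
        obtain ⟨k, hk⟩ : e ∣ g := by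
          rw [← hgcd]
          exact Nat.dvd_gcd (Dvd.intro_left p rfl) he
        have hkp : k ∣ p := by
          have h1 : g ∣ p * e := by rw [← hgcd]; exact Nat.gcd_dvd_left _ _
          rw [hk, mul_comm] at h1
          exact Nat.dvd_of_mul_dvd_mul_right he0 h1
        rcases (Nat.dvd_prime hp).1 hkp with hk1 | hk1
        · have heg : e = g := by rw [hk, hk1, mul_one]
          refine ⟨u, by rw [huy, heg, hχ], ?_⟩
          have h1 : (((p : ZMod q) * (u : ZMod q)) - 1) * ((g : ℕ) : ZMod q) = 0 := by
            rw [sub_mul, one_mul, sub_eq_zero]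
            have h2 : (p : ZMod q) * (((g' : ℕ) : ZMod q) + t) = ((g : ℕ) : ZMod q) := by
              rw [mul_add, ht, add_zero, ← Nat.cast_mul, ← hgg]
            rw [huy, heg] at h2
            rw [mul_assoc]
            exact h2
          have h2 : ZMod.castHom hmq (ZMod m) ((p : ZMod q) * (u : ZMod q) - 1) = 0 := by
            rw [cast_zero_iff hmq, hqm]
            exact h1
          have h3 : ZMod.castHom hcq (ZMod χ.conductor) ((p : ZMod q) * (u : ZMod q) - 1) = 0 := by
            have h4 := congrArg (ZMod.castHom hcond (ZMod χ.conductor)) h2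
            rw [map_zero] at h4
            rw [← h4, ← RingHom.comp_apply]
            congr 1
            exact Subsingleton.elim _ _
          rw [map_sub, map_mul, map_natCast, map_one, sub_eq_zero] at h3
          have h5 : χ.primitiveCharacter (ZMod.castHom hcq (ZMod χ.conductor) (u : ZMod q)) =
              χ (u : ZMod q) := by
            have h6 := DirichletCharacter.changeLevel_eq_cast_of_dvd χ.primitiveCharacter
              χ.conductor_dvd_level u
            rw [DirichletCharacter.changeLevel_primitiveCharacter] at h6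
            rw [h6]
            rfl
          rw [← h5, ← map_mul, h3, map_one]
        · exfalso
          apply hne'
          have heg : e = g' := by
            rw [hk1] at hk
            rw [hk, mul_comm] at hgg
            exact (Nat.eq_of_mul_eq_mul_left hp.pos hgg)
          rw [huy, heg, hχ, ih g' hlt hg'q, mul_zero]
      set T := (Finset.univ.filter (fun t : ZMod q => (p : ZMod q) * t = 0)).filter
        (fun t => E (((g' : ℕ) : ZMod q) + t) ≠ 0) with hT
      set c := (χ.primitiveCharacter (p : ℕ))⁻¹ with hc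
      have hTt : ∀ t ∈ T, E (((g' : ℕ) : ZMod q) + t) = c * E ((g : ℕ) : ZMod q) ∧ ‖c‖ = 1 := by
        intro t ht
        rw [hT, Finset.mem_filter, Finset.mem_filter] at ht
        obtain ⟨u, hu1, hu2⟩ := hterm t ht.1.2 ht.2
        have h1 : c = χ (u : ZMod q) := by
          rw [hc]
          exact inv_eq_of_mul_eq_one_right hu2
        exact ⟨by rw [h1]; exact hu1, by rw [h1]; exact χ.unit_norm_eq_one u⟩
      have hsum : (T.card : ℂ) * c = 1 := by
        have h1 : ∑ t ∈ T, E (((g' : ℕ) : ZMod q) + t) = E ((g : ℕ) : ZMod q) := by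
          rw [← hr, hT]
          exact Finset.sum_filter_ne_zero _
        rw [Finset.sum_congr rfl (fun t ht => (hTt t ht).1), Finset.sum_const, nsmul_eq_mul] at h1
        have h2 : ((T.card : ℂ) * c - 1) * E ((g : ℕ) : ZMod q) = 0 := by
          rw [sub_mul, one_mul, mul_assoc, h1, sub_self]
        exact sub_eq_zero.1 ((mul_eq_zero.1 h2).resolve_right hne)
      have hTne : T.Nonempty := by
        rw [Finset.nonempty_iff_ne_empty]
        intro h
        rw [h, Finset.card_empty, Nat.cast_zero, zero_mul] at hsum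
        exact zero_ne_one hsum
      obtain ⟨t, ht⟩ := hTne
      have hcn := (hTt t ht).2
      have hcard : T.card = 1 := by
        have h1 := congrArg norm hsum
        rw [norm_mul, hcn, mul_one, norm_one, Complex.norm_natCast] at h1
        exact_mod_cast h1
      rw [hcard, Nat.cast_one, one_mul] at hsum
      apply hgood p hp hpq
      rw [hc] at hsum
      exact inv_eq_one.1 hsum
  intro a
  obtain ⟨g, hg, u, hu, rfl⟩ := ZMod.eq_unit_mul_divisor a
  obtain ⟨u, rfl⟩ := hu
  rw [hχ, key g hg, mul_zero]

end Pool.Agent.Helper24.CR
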