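import Pool.Agent.Helper24.GammaFull
import Pool.Agent.Helper24.GammaNeg
import Pool.Agent.Helper24.LU.Fs

/-!
# PROJECT ALLQ (MP_274814_nt), criterion block: the field of the problem against the full field

`HP q` (every prime `p ∣ q` has a power `≡ -1` modulo the `p`-free part of `q`) is necessary for the
inequality of Q1 at `q`, and under it the field `F q` of the problem and the field `Fall q` generated
by `π` and all the `Γ (a / q)` have the same transcendence degree.
-/

set_option autoImplicit false

namespace Pool.Agent.Helper24.CR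

open Pool.Agent.Helper24.LRDefs Pool.Agent.Helper24.GammaNeg Pool.Agent.Helper24.GammaFull
open Pool.Agent.Helper24.LU (HP)

/-- If the full field at level `q` has transcendence degree at least `1 + φ(q)/2` exactly for the `q`
in a set `Q`, then the inequality of Q1 holds exactly for the `q` in `Q` with `HP q`. -/
theorem literal_iff (Q : ℕ → Prop)
    (h : ∀ q : ℕ, 2 < q → (1 + ((q.totient / 2 : ℕ) : Cardinal) ≤ Algebra.trdeg ℚ (Fall q) ↔ Q q))
    (q : ℕ) (hq : 2 < q) :
    1 + ((q.totient / 2 : ℕ) : Cardinal) ≤ Algebra.trdeg ℚ (F q) ↔ Q q ∧ HP q := by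
  constructor
  · intro h1
    have h2 : HP q := by
      by_contra h3
      unfold HP at h3
      push Not at h3
      obtain ⟨p, hp, hpq, hneg⟩ := h3
      have h4 := h1.trans (fails q hq hp hpq hneg)
      have h5 : 1 + q.totient / 2 ≤ q.totient / 2 := by exact_mod_cast h4
      omega
    refine ⟨(h q hq).1 ?_, h2⟩
    rw [← trdeg_eq q hq h2]
    exact h1
  · rintro ⟨h1, h2⟩
    rw [trdeg_eq q hq h2]
    exact (h q hq).2 h1

end Pool.Agent.Helper24.CR
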