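import Pool.Agent.Helper24.GammaNeg
import Pool.Agent.Helper24.LU.Fs

/-!
# PROJECT ALLQ (MP_274814_nt), criterion block: rank of the primitive values of an odd distribution
-/

set_option autoImplicit false

namespace Pool.Agent.Helper24.CR

open Pool.Agent.Helper24.GammaDist Pool.Agent.Helper24.GammaChar
open Pool.Agent.Helper24.LU Pool.Agent.Helper24.GammaTr
open Module

section Rank

variable {M : Type*} [AddCommGroup M] [Module ℚ M] {f : ℚ → M}

/-- The primitive values at level `q`. -/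
noncomputable def vv (f : ℚ → M) (q : ℕ) [NeZero q] (u : (ZMod q)ˣ) : M :=
  f ((u : ZMod q).val / (q : ℚ))

lemma dist_map (hf : IsOddDist f) (l : M →ₗ[ℚ] ℂ) : IsOddDist (fun x => l (f x)) := by
  refine ⟨fun x => by rw [hf.1], fun x => by rw [hf.2, map_neg], fun N hN x => ?_⟩
  rw [← map_sum, hf.3 N hN]

lemma good_span' (hf : IsOddDist f) (q : ℕ) [NeZero q] (hq : 1 < q) (l : M →ₗ[ℚ] ℂ) :
    (fun u : (ZMod q)ˣ => l (vv f q u)) ∈ Submodule.span ℂ
      (Set.range fun χ : {χ : DirichletCharacter ℂ q // Good q χ} =>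
        (fun u : (ZMod q)ˣ => χ.1 (u : ZMod q))) := by
  classical
  have hf := dist_map hf l
  have h1 : (fun u : (ZMod q)ˣ => l (vv f q u)) = ∑ χ : DirichletCharacter ℂ q,
      ((q.totient : ℂ)⁻¹ * ∑ w : (ZMod q)ˣ, χ ((w⁻¹ : (ZMod q)ˣ) : ZMod q) * l (vv f q w)) •
        (fun u : (ZMod q)ˣ => χ (u : ZMod q)) := by
    funext u
    rw [Finset.sum_apply]
    exact expansion q (fun u => l (vv f q u)) u
  rw [h1]
  refine Submodule.sum_mem _ fun χ _ => ?_
  by_cases hχ : Good q χ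
  · exact Submodule.smul_mem _ _ (Submodule.subset_span ⟨⟨χ, hχ⟩, rfl⟩)
  · have h2 := coeff_zero hf q hq χ hχ
    have h3 : ∑ w : (ZMod q)ˣ, χ ((w⁻¹ : (ZMod q)ˣ) : ZMod q) * l (vv f q w) = 0 := h2
    rw [h3, mul_zero, zero_smul]
    exact Submodule.zero_mem _

/-- The rank of the span of the primitive values is at most the number of good characters. -/
theorem rank_le' (hf : IsOddDist f) (q : ℕ) [NeZero q] (hq : 1 < q) :
    finrank ℚ (Submodule.span ℚ (Set.range (vv f q))) ≤
      Nat.card {χ : DirichletCharacter ℂ q // Good q χ} := by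
  classical
  set U := Submodule.span ℚ (Set.range (vv f q)) with hU
  have hfin : FiniteDimensional ℚ U := FiniteDimensional.span_of_finite ℚ (Set.finite_range _)
  have hmem : ∀ u, vv f q u ∈ U := fun u => Submodule.subset_span ⟨u, rfl⟩
  let Φ : (U →ₗ[ℚ] ℂ) →ₗ[ℂ] ((ZMod q)ˣ → ℂ) :=
    { toFun := fun l u => l ⟨vv f q u, hmem u⟩
      map_add' := fun l m => rfl
      map_smul' := fun c l => rfl }
  have hinj : Function.Injective Φ := by
    rw [← LinearMap.ker_eq_bot, LinearMap.ker_eq_bot']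
    intro l hl
    have h1 : ∀ u, l ⟨vv f q u, hmem u⟩ = 0 := fun u => congrFun hl u
    ext ⟨x, hx⟩
    rw [LinearMap.zero_apply]
    have h2 : U ≤ (LinearMap.ker l).map U.subtype := by
      refine Submodule.span_le.mpr ?_
      rintro _ ⟨u, rfl⟩
      exact ⟨⟨vv f q u, hmem u⟩, h1 u, rfl⟩
    obtain ⟨y, hy, hyx⟩ := h2 hx
    have : y = ⟨x, hx⟩ := Subtype.ext hyx
    rw [← this]
    exact hy
  have hrange : LinearMap.range Φ ≤ Submodule.span ℂ
      (Set.range fun χ : {χ : DirichletCharacter ℂ q // Good q χ} =>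
        (fun u : (ZMod q)ˣ => χ.1 (u : ZMod q))) := by
    rintro _ ⟨l, rfl⟩
    obtain ⟨l', hl'⟩ := l.exists_extend
    have : Φ l = fun u : (ZMod q)ˣ => l' (vv f q u) := by
      funext u
      have := congrArg (fun m => m ⟨vv f q u, hmem u⟩) hl'
      exact this.symm
    rw [this]
    exact good_span' hf q hq l'
  have h1 : finrank ℂ (U →ₗ[ℚ] ℂ) = finrank ℚ U := Module.finrank_linearMap_self ℚ ℂ U
  rw [← h1, ← LinearMap.finrank_range_of_inj hinj]
  refine (Submodule.finrank_mono hrange).trans ?_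
  have h2 := finrank_range_le_card (R := ℂ)
    (fun χ : {χ : DirichletCharacter ℂ q // Good q χ} =>
        (fun u : (ZMod q)ˣ => χ.1 (u : ZMod q)))
  rw [Set.finrank] at h2
  rw [Nat.card_eq_fintype_card]
  exact h2

end Rank

/-! ### algebraic independence gives linear independence of the classes -/

lemma alg_bot {z : ℂ} (h : IsAlgebraic (⊥ : IntermediateField ℚ ℂ) z) : IsAlgebraic ℚ z :=
  h.restrictScalars ℚ

lemma CC_bot_le (K : IntermediateField ℚ ℂ) : CC ⊥ ≤ CC K := by
  intro y hy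
  have h1 : IsAlgebraic (⊥ : IntermediateField ℚ ℂ) ((Real.exp y : ℝ) : ℂ) := hy
  exact (alg_bot h1).tower_top K

/-- The map between the quotients. -/
noncomputable def qm (K : IntermediateField ℚ ℂ) : (ℝ ⧸ CC ⊥) →ₗ[ℚ] (ℝ ⧸ CC K) :=
  Submodule.mapQ (CC ⊥) (CC K) LinearMap.id (CC_bot_le K)

lemma qm_H (K : IntermediateField ℚ ℂ) (x : ℚ) : qm K (H ⊥ x) = H K x := by
  unfold H
  by_cases h : Int.fract x = 0
  · rw [if_pos h, if_pos h, map_zero]
  · rw [if_neg h, if_neg h]
    rfl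

theorem li_of_ai {I : Type*} (q : ℕ) (c : I → ℕ) (hc : ∀ i, 1 ≤ c i ∧ c i < q)
    (h : AlgebraicIndependent ℚ (fun i => ((Rr q (c i) : ℝ) : ℂ))) :
    LinearIndependent ℚ (fun i => H ⊥ ((c i : ℕ) / (q : ℚ))) := by
  classical
  rw [linearIndependent_iff']
  intro s g hg
  by_contra hne
  push Not at hne
  obtain ⟨i0, hi0, hgi⟩ := hne
  set K : IntermediateField ℚ ℂ := IntermediateField.adjoin ℚ
    ((fun i => ((Rr q (c i) : ℝ) : ℂ)) '' {i | i ≠ i0}) with hK
  have h1 : ∑ i ∈ s, g i • H K ((c i : ℕ) / (q : ℚ)) = 0 := by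
    have := congrArg (qm K) hg
    rw [map_sum, map_zero] at this
    rw [← this]
    refine Finset.sum_congr rfl fun i _ => ?_
    rw [map_smul, qm_H]
  have h2 : ∀ i, i ≠ i0 → H K ((c i : ℕ) / (q : ℚ)) = 0 := by
    intro i hi
    rw [H_zero_iff K (c i) q (hc i).1 (hc i).2]
    apply isAlg_of_mem
    exact IntermediateField.subset_adjoin ℚ _ ⟨i, hi, rfl⟩
  rw [Finset.sum_eq_single i0 (fun i _ hi => by rw [h2 i hi, smul_zero])
    (fun h => absurd hi0 h)] at h1
  have h3 : H K ((c i0 : ℕ) / (q : ℚ)) = 0 := (smul_eq_zero.1 h1).resolve_left hgi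
  rw [H_zero_iff K (c i0) q (hc i0).1 (hc i0).2] at h3
  have h4 := alg_adjoin _ h3
  exact h.transcendental_adjoin (s := {i | i ≠ i0}) (i := i0) (by simp) h4

/-- If `q` is not a good level then the primitive ratios are algebraically dependent. -/
theorem prim_dep (q : ℕ) (hq : 2 < q) (hneg : ¬ HP q) :
    ¬ AlgebraicIndependent ℚ (fun a : Pidx q => Rr q a) := by
  classical
  have hq0 : NeZero q := ⟨by omega⟩
  intro h
  have h0 := real_iff.2 h
  have hpos : ∀ a : Pidx q, 1 ≤ (a : ℕ) ∧ (a : ℕ) < q := by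
    intro a
    have ha := a.2
    rw [Finset.mem_filter, Finset.mem_range] at ha
    refine ⟨?_, ha.1⟩
    rcases Nat.eq_zero_or_pos (a : ℕ) with h | h
    · rw [h, Nat.coprime_zero_left] at ha; omega
    · exact h
  have h1 := li_of_ai q (fun a : Pidx q => (a : ℕ)) hpos h0
  have hf := H_dist ⊥
  have h2 := rank_le' hf q (by omega)
  have h3 : ∀ a : Pidx q, H ⊥ (((a : ℕ) : ℚ) / q) ∈
      Submodule.span ℚ (Set.range (vv (H ⊥) q)) := by
    intro a
    apply Submodule.subset_span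
    have ha := a.2
    rw [Finset.mem_filter, Finset.mem_range] at ha
    refine ⟨ZMod.unitOfCoprime a ha.2.2, ?_⟩
    unfold vv
    rw [ZMod.coe_unitOfCoprime, ZMod.val_natCast, Nat.mod_eq_of_lt ha.1]
  have hfin : FiniteDimensional ℚ (Submodule.span ℚ (Set.range (vv (H ⊥) q))) :=
    FiniteDimensional.span_of_finite ℚ (Set.finite_range _)
  have h4 : Fintype.card (Pidx q) ≤ finrank ℚ (Submodule.span ℚ (Set.range (vv (H ⊥) q))) := by
    have h5 : LinearIndependent ℚ (fun a : Pidx q =>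
        (⟨H ⊥ (((a : ℕ) : ℚ) / q), h3 a⟩ : Submodule.span ℚ (Set.range (vv (H ⊥) q)))) := by
      apply LinearIndependent.of_comp (Submodule.subtype _)
      exact h1
    exact h5.fintype_card_le_finrank
  unfold HP at hneg
  push Not at hneg
  obtain ⟨p, hp, hpq, hneg⟩ := hneg
  have h6 := GammaNeg.card_good_lt q hq hp hpq hneg
  rw [card_Pidx q hq] at h4
  omega

end Pool.Agent.Helper24.CR
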