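import Pool.Agent.Helper24.CR.Ei
import Pool.Agent.Helper24.CR.Rk
import Pool.Agent.Helper24.CR.Li
import Pool.Agent.Helper17.LR.Cv

/-!
# PROJECT ALLQ (MP_274814_nt), criterion block: the exact transcendence degree of the primitive ratios

`gd q` is the number of good characters: the odd characters modulo `q` whose primitive character is
not `1` at any prime dividing `q`.
-/

set_option autoImplicit false

namespace Pool.Agent.Helper24.CR

open Set Module Pool.Agent.Helper17.LR Pool.Agent.Helper24.LU Pool.Agent.Helper24.GammaTr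
open Pool.Agent.Helper24.GammaChar (Good)
open Pool.Agent.Helper24.LRDefs

/-- The number of good characters. -/
noncomputable def gd (q : ℕ) : ℕ := Nat.card {χ : DirichletCharacter ℂ q // Good q χ}

theorem card_bad (q : ℕ) (hq : 2 < q) :
    Nat.card {χ : DirichletCharacter ℂ q // χ.Odd ∧ ¬ Good q χ} + gd q = q.totient / 2 := by
  classical
  have hq0 : NeZero q := ⟨by omega⟩
  have h1 := GammaNeg.card_odd q hq
  unfold gd
  rw [Nat.card_eq_fintype_card, Fintype.card_subtype] at h1 ⊢
  rw [Nat.card_eq_fintype_card, Fintype.card_subtype]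
  have h2 : (Finset.univ.filter (fun χ : DirichletCharacter ℂ q => χ.Odd)) =
      (Finset.univ.filter (fun χ : DirichletCharacter ℂ q => χ.Odd ∧ ¬ Good q χ)) ∪
        (Finset.univ.filter (fun χ : DirichletCharacter ℂ q => Good q χ)) := by
    ext χ
    simp only [Finset.mem_filter, Finset.mem_univ, true_and, Finset.mem_union]
    constructor
    · intro h
      by_cases hg : Good q χ
      · exact Or.inr hg
      · exact Or.inl ⟨h, hg⟩
    · rintro (h | h)
      · exact h.1
      · exact h.1
  have h3 : Disjoint (Finset.univ.filter (fun χ : DirichletCharacter ℂ q => χ.Odd ∧ ¬ Good q χ))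
      (Finset.univ.filter (fun χ : DirichletCharacter ℂ q => Good q χ)) := by
    rw [Finset.disjoint_left]
    intro χ h h'
    rw [Finset.mem_filter] at h h'
    exact h.2.2 h'.2
  rw [h2, Finset.card_union_of_disjoint h3] at h1
  omega

/-- The span of the primitive classes has rank at least the number of good characters. -/
theorem rank_prim_ge (q : ℕ) [NeZero q] (hq : 2 < q) (h : HasInd q (q.totient / 2)) :
    gd q ≤ finrank ℚ (Submodule.span ℚ (range fun u : (ZMod q)ˣ => hv q (u : ZMod q))) := by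
  classical
  set U := Submodule.span ℚ (range (hv q)) with hU
  set U' := Submodule.span ℚ (range fun u : (ZMod q)ˣ => hv q (u : ZMod q)) with hU'
  have hle : U' ≤ U := Submodule.span_mono (by rintro _ ⟨u, rfl⟩; exact ⟨_, rfl⟩)
  have hfin : FiniteDimensional ℚ U := FiniteDimensional.span_of_finite ℚ (Set.finite_range _)
  have hfin' : FiniteDimensional ℚ U' := FiniteDimensional.span_of_finite ℚ (Set.finite_range _)
  have hmem : ∀ a, hv q a ∈ U := fun a => Submodule.subset_span ⟨a, rfl⟩
  have hmem' : ∀ u : (ZMod q)ˣ, hv q (u : ZMod q) ∈ U' := fun u => Submodule.subset_span ⟨u, rfl⟩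
  have hOD : ∀ l : U →ₗ[ℚ] ℂ, OD q (fun a => l ⟨hv q a, hmem a⟩) := by
    intro l
    refine ⟨?_, ?_⟩
    · intro a
      rw [← map_neg]
      congr 1
      exact Subtype.ext ((OD_hv q).neg a)
    · intro p hp hpq a
      rw [← map_sum]
      congr 1
      apply Subtype.ext
      rw [Submodule.coe_sum]
      exact (OD_hv q).rel p hp hpq a
  let ρ : (U →ₗ[ℚ] ℂ) →ₗ[ℂ] (U' →ₗ[ℚ] ℂ) :=
    { toFun := fun l => l.comp (Submodule.inclusion hle)
      map_add' := fun l m => rfl
      map_smul' := fun c l => rfl }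
  let Φ : (U →ₗ[ℚ] ℂ) →ₗ[ℂ] ({χ : DirichletCharacter ℂ q // χ.Odd ∧ ¬ Good q χ} → ℂ) :=
    { toFun := fun l χ =>
        Helper17.LR.cmp q χ.1 (fun a => l ⟨hv q a, hmem a⟩) ((q / χ.1.conductor : ℕ) : ZMod q)
      map_add' := fun l m => by
        funext χ
        simp only [Helper17.LR.cmp, Pi.add_apply, ← Finset.sum_add_distrib, LinearMap.add_apply, mul_add]
      map_smul' := fun c l => by
        funext χ
        simp only [Helper17.LR.cmp, Pi.smul_apply, LinearMap.smul_apply, smul_eq_mul, RingHom.id_apply,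
          Finset.mul_sum]
        refine Finset.sum_congr rfl fun u _ => ?_
        ring }
  have hinj : Function.Injective (Φ.comp (LinearMap.ker ρ).subtype) := by
    rw [← LinearMap.ker_eq_bot, LinearMap.ker_eq_bot']
    rintro ⟨l, hl⟩ hl2
    rw [LinearMap.mem_ker] at hl
    have hzu : ∀ u : (ZMod q)ˣ, l ⟨hv q (u : ZMod q), hmem _⟩ = 0 := by
      intro u
      have := congrArg (fun m : U' →ₗ[ℚ] ℂ => m ⟨hv q (u : ZMod q), hmem' u⟩) hl
      exact this
    have hz : ∀ a, l ⟨hv q a, hmem a⟩ = 0 := by
      intro a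
      have h1 : ∀ χ : DirichletCharacter ℂ q, Helper17.LR.cmp q χ (fun a => l ⟨hv q a, hmem a⟩) a = 0 := by
        intro χ
        by_cases hχ : χ.Odd
        · by_cases hg : Good q χ
          · refine eigen_prim q χ hg.2 (Helper17.LR.cmp q χ _)
              (fun p hp hpq b => cmp_rel q χ _ (hOD l) p hp hpq b)
              (fun u b => cmp_unit q χ _ u b) ?_ a
            unfold Helper17.LR.cmp
            refine Finset.sum_eq_zero fun u _ => ?_
            have h2 : (fun a => l ⟨hv q a, hmem a⟩) ((u : ZMod q) * 1) = 0 := by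
              have h3 := hzu u
              simp only [mul_one]
              exact h3
            rw [h2, mul_zero]
          · exact eigen_zero q χ (Helper17.LR.cmp q χ _) (fun p hp hpq b => cmp_rel q χ _ (hOD l) p hp hpq b)
              (fun u b => cmp_unit q χ _ u b) (congrFun hl2 ⟨χ, hχ, hg⟩) a
        · exact cmp_even q χ _ (hOD l) hχ a
      have h2 := Pool.Agent.Helper24.GammaChar.expansion q
        (fun u => (fun a => l ⟨hv q a, hmem a⟩) ((u : ZMod q) * a)) 1
      simp only [Units.val_one, one_mul] at h2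
      rw [h2]
      refine Finset.sum_eq_zero fun χ _ => ?_
      have h3 := h1 χ
      unfold Helper17.LR.cmp at h3
      rw [h3, mul_zero, zero_mul]
    apply Subtype.ext
    change l = 0
    ext ⟨x, hx⟩
    rw [LinearMap.zero_apply]
    have h2 : U ≤ (LinearMap.ker l).map U.subtype := by
      refine Submodule.span_le.mpr ?_
      rintro _ ⟨u, rfl⟩
      exact ⟨⟨hv q u, hmem u⟩, hz u, rfl⟩
    obtain ⟨y, hy, hyx⟩ := h2 hx
    have : y = ⟨x, hx⟩ := Subtype.ext hyx
    rw [← this]
    exact hy
  have h1 : finrank ℂ (U →ₗ[ℚ] ℂ) = finrank ℚ U := Module.finrank_linearMap_self ℚ ℂ U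
  have h1' : finrank ℂ (U' →ₗ[ℚ] ℂ) = finrank ℚ U' := Module.finrank_linearMap_self ℚ ℂ U'
  have h2 := LinearMap.finrank_range_add_finrank_ker ρ
  have h3 := LinearMap.finrank_le_finrank_of_injective hinj
  rw [Module.finrank_fintype_fun_eq_card, ← Nat.card_eq_fintype_card] at h3
  have h4 : finrank ℂ (LinearMap.range ρ) ≤ finrank ℂ (U' →ₗ[ℚ] ℂ) :=
    Submodule.finrank_le _
  have h5 := card_bad q hq
  have h6 := rank_ge q _ h
  rw [← hU] at h6
  omega

theorem rank_prim_le (q : ℕ) [NeZero q] (hq : 2 < q) :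
    finrank ℚ (Submodule.span ℚ (range fun u : (ZMod q)ˣ => hv q (u : ZMod q))) ≤ gd q :=
  rank_le' (H_dist ⊥) q (by omega)

/-- A basis of the primitive classes. -/
theorem exists_prim (q : ℕ) [NeZero q] (hq : 2 < q) (h : HasInd q (q.totient / 2)) :
    ∃ S : Set (ZMod q), (∀ a ∈ S, IsUnit a) ∧ Nat.card S = gd q ∧
      (∀ u : (ZMod q)ˣ, hv q (u : ZMod q) ∈ Submodule.span ℚ (hv q '' S)) ∧
      AlgebraicIndependent ℚ (fun a : S => Rz q a) := by
  classical
  obtain ⟨b, hb, -, hspan, hli⟩ := exists_linearIndepOn_extension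
    (linearIndepOn_empty ℚ (hv q)) (empty_subset {a : ZMod q | IsUnit a})
  refine ⟨b, fun a ha => hb ha, ?_, ?_, indep_of_hv q hq h b hli⟩
  · have : Fintype b := Fintype.ofFinite b
    have hsp : Submodule.span ℚ (range fun u : (ZMod q)ˣ => hv q (u : ZMod q)) =
        Submodule.span ℚ (hv q '' b) := by
      apply le_antisymm
      · rw [Submodule.span_le]
        rintro _ ⟨u, rfl⟩
        exact hspan ⟨(u : ZMod q), u.isUnit, rfl⟩
      · apply Submodule.span_mono
        rintro _ ⟨a, ha, rfl⟩
        obtain ⟨u, hu⟩ := hb ha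
        exact ⟨u, by rw [← hu]⟩
    have h5 := finrank_span_eq_card hli
    have h6 := rank_prim_ge q hq h
    have h7 := rank_prim_le q hq
    rw [hsp, image_eq_range] at h6 h7
    rw [Nat.card_eq_fintype_card]
    omega
  · intro u
    exact hspan ⟨(u : ZMod q), u.isUnit, rfl⟩

end Pool.Agent.Helper24.CR
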