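import Pool.Agent.Helper24.CR.Al
import Pool.Agent.Helper24.LU.Fn

/-!
# PROJECT ALLQ (MP_274814_nt), criterion block: the final statement without `π`
-/

set_option autoImplicit false

namespace Pool.Agent.Helper24.CR

open Set Module Pool.Agent.Helper17.LR Pool.Agent.Helper24.LU Pool.Agent.Helper24.GammaTr
open Pool.Agent.Helper24.GammaDist (IsOddDist)
open Pool.Agent.Helper24.GammaChar (Good)
open Pool.Agent.Helper24.LRDefs

/-- The field generated by all the ratios. -/
noncomputable def Ka (q : ℕ) : IntermediateField ℚ ℂ :=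
  IntermediateField.adjoin ℚ {z : ℂ | ∃ a : ℕ, 1 ≤ a ∧ a < q ∧ z = ((Rr q a : ℝ) : ℂ)}

theorem trdeg_Ka (q : ℕ) (hq : 2 < q) (h : HasInd q (q.totient / 2)) :
    Algebra.trdeg ℚ (Ka q) = ((q.totient / 2 : ℕ) : Cardinal) := by
  classical
  apply le_antisymm
  · have : NeZero q := ⟨by omega⟩
    obtain ⟨b, -, -, hspan, hli⟩ := exists_linearIndepOn_extension
      (linearIndepOn_empty ℚ (hv q)) (empty_subset (univ : Set (ZMod q)))
    have hb0 : ∀ x ∈ b, x ≠ 0 := ne_zero_of_lin (hv_zero q) hli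
    have : Fintype b := Fintype.ofFinite b
    have hcard : Fintype.card b ≤ q.totient / 2 := by
      have hfin : FiniteDimensional ℚ (Submodule.span ℚ (range (hv q))) :=
        FiniteDimensional.span_of_finite ℚ (Set.finite_range _)
      have h5 := finrank_span_eq_card hli
      rw [← h5]
      refine (Submodule.finrank_mono (Submodule.span_mono ?_)).trans
        (rank_OD q hq (hv q) (OD_hv q))
      rintro _ ⟨a, rfl⟩
      exact ⟨a, rfl⟩
    set K := IntermediateField.adjoin ℚ (Rz q '' b) with hK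
    have hR : ∀ a : ZMod q, a ≠ 0 → IsAlgebraic K (Rz q a) := by
      intro a ha
      refine alg_of_span q b a ha hb0 (hspan ⟨a, mem_univ a, rfl⟩) K ?_
      intro c hc
      exact isAlg_of_mem K (IntermediateField.subset_adjoin ℚ _ ⟨c, hc, rfl⟩)
    have hR' : ∀ a : ℕ, 1 ≤ a → a < q → IsAlgebraic K ((Rr q a : ℝ) : ℂ) := by
      intro a h1 h2
      have h3 := hR (a : ZMod q) (by
        intro h3
        rw [ZMod.natCast_eq_zero_iff] at h3
        exact absurd (Nat.le_of_dvd h1 h3) (by omega))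
      unfold Rz at h3
      rwa [ZMod.val_cast_of_lt h2] at h3
    have hle : Ka q ≤ (algebraicClosure K ℂ).restrictScalars ℚ := by
      unfold Ka
      rw [IntermediateField.adjoin_le_iff]
      rintro z ⟨a, ha1, ha2, rfl⟩
      change _ ∈ IntermediateField.restrictScalars ℚ _
      rw [IntermediateField.mem_restrictScalars, mem_algebraicClosure_iff]
      exact hR' a ha1 ha2
    have h1 := trdeg_le_of_alg (Ka q) (Rz q '' b) (fun z hz => by
      have := hle hz
      rwa [IntermediateField.mem_restrictScalars, mem_algebraicClosure_iff] at this)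
    refine h1.trans (Cardinal.mk_image_le.trans ?_)
    rw [Cardinal.mk_fintype, Nat.cast_le]
    exact hcard
  · exact h.trdeg_le (Ka q) (fun a h1 h2 =>
      isAlg_of_mem _ (IntermediateField.subset_adjoin ℚ _ ⟨a, h1, h2, rfl⟩))

/-- All odd characters are good exactly at the good levels. -/
theorem gd_eq_iff (q : ℕ) (hq : 2 < q) (h : HasInd q (q.totient / 2)) :
    gd q = q.totient / 2 ↔ HP q := by
  constructor
  · intro h1
    by_contra hneg
    unfold HP at hneg
    push Not at hneg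
    obtain ⟨p, hp, hpq, hneg⟩ := hneg
    have h6 := GammaNeg.card_good_lt q hq hp hpq hneg
    unfold gd at h1
    omega
  · intro h1
    have h2 := real_iff.2 (h.prim hq h1)
    have h3 := card_le_trdeg _ h2 (Kp q) (by
      rintro ⟨a, ha⟩
      rw [Finset.mem_filter, Finset.mem_range] at ha
      refine isAlg_of_mem _ (IntermediateField.subset_adjoin ℚ _ ⟨a, ?_, ha.1, ha.2.2, rfl⟩)
      rcases Nat.eq_zero_or_pos a with h | h
      · rw [h, Nat.coprime_zero_left] at ha; omega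
      · exact h)
    rw [trdeg_Kp q hq h, Nat.card_eq_fintype_card, card_Pidx q hq, Nat.cast_le] at h3
    have h4 := card_bad q hq
    omega

/-- Two index sets of the primitive ratios. -/
def pEquiv (q : ℕ) (hq : 2 < q) : {a : ℕ // 1 ≤ a ∧ 2 * a < q ∧ a.Coprime q} ≃ Pidx q where
  toFun a := ⟨a, by
    rw [Finset.mem_filter, Finset.mem_range]
    exact ⟨by have := a.2.2.1; omega, a.2.2.1, a.2.2.2⟩⟩
  invFun a := ⟨a, by
    have ha := a.2
    rw [Finset.mem_filter, Finset.mem_range] at ha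
    refine ⟨?_, ha.2.1, ha.2.2⟩
    rcases Nat.eq_zero_or_pos (a : ℕ) with h | h
    · rw [h, Nat.coprime_zero_left] at ha; omega
    · exact h⟩
  left_inv _ := rfl
  right_inv _ := rfl

theorem prim_iff' (q : ℕ) (hq : 2 < q) (h : HasInd q (q.totient / 2)) :
    AlgebraicIndependent ℚ
      (fun a : {a : ℕ // 1 ≤ a ∧ 2 * a < q ∧ a.Coprime q} => Rr q a) ↔ HP q := by
  rw [← prim_iff q hq h]
  constructor
  · intro h1
    exact h1.comp (pEquiv q hq).symm (pEquiv q hq).symm.injective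
  · intro h1
    exact h1.comp (pEquiv q hq) (pEquiv q hq).injective

/-- The final statement. -/
def Main : Prop :=
  ∀ q : ℕ, 2 < q →
    (∃ S : Finset ℕ, S.card = q.totient / 2 ∧ (∀ a ∈ S, 1 ≤ a ∧ a < q) ∧
      AlgebraicIndependent ℚ (fun a : S => Rr q a)) ∧
    Algebra.trdeg ℚ (Ka q) = ((q.totient / 2 : ℕ) : Cardinal) ∧
    (∀ S : Finset ℕ, (∀ a ∈ S, 1 ≤ a ∧ a < q) →
      (AlgebraicIndependent ℚ (fun a : S => Rr q a) ↔
        ∀ m : ℕ → ℤ, IsAlgebraic ℚ (∏ a ∈ S, Rr q a ^ m a) → ∀ a ∈ S, m a = 0) ∧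
      ∀ m : ℕ → ℤ, IsAlgebraic ℚ (∏ a ∈ S, Rr q a ^ m a) ↔
        ∀ f : ℚ → ℝ, IsOddDist f → ∑ a ∈ S, (m a : ℝ) * f ((a : ℚ) / q) = 0) ∧
    (AlgebraicIndependent ℚ
      (fun a : {a : ℕ // 1 ≤ a ∧ 2 * a < q ∧ a.Coprime q} => Rr q a) ↔ HP q) ∧
    Algebra.trdeg ℚ (Kp q) = ((gd q : ℕ) : Cardinal) ∧
    ((gd q : ℕ) : Cardinal) ≤ Algebra.trdeg ℚ (F q) ∧
    Algebra.trdeg ℚ (F q) ≤ ((1 + gd q : ℕ) : Cardinal) ∧
    (gd q = q.totient / 2 ↔ HP q)

theorem main (hall : ∀ q : ℕ, 2 < q → HasInd q (q.totient / 2)) : Main := by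
  intro q hq
  have h := hall q hq
  refine ⟨?_, trdeg_Ka q hq h, fun S hS => ⟨ai_iff q hq h S hS, fun m => ?_⟩, prim_iff' q hq h,
    trdeg_Kp q hq h, trdeg_F_ge q hq h, trdeg_F_le q hq, gd_eq_iff q hq h⟩
  · exact h.toInd
  · rw [prod_alg_iff q S hS m, class_iff q hq h S hS m]

end Pool.Agent.Helper24.CR
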